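import Mathlib
import Pool.Agent.H204R3.GP.HomDefs

/-!
# Homomorphisms between `V^{⊗ s} ⊗ M₁` and `V^{⊗ t} ⊗ M₂`: definitions
-/

set_option autoImplicit false

namespace Pool.Agent.U400.HM

open scoped TensorProduct
open Pool.Agent.H204R3.GP

variable {k V M₁ M₂ Γ : Type*} [Field k] [AddCommGroup V] [Module k V] [AddCommGroup M₁]
  [Module k M₁] [AddCommGroup M₂] [Module k M₂] [Group Γ]

/-- `f` is a homomorphism `V^{⊗ s} ⊗ M₁ → V^{⊗ t} ⊗ M₂ (c)` for a subgroup of finite index. -/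
def IsHomOver (ρ : Representation k Γ V) (χ : Γ →* k) (σ₁ : Representation k Γ M₁)
    (σ₂ : Representation k Γ M₂) (c : ℤ) {s t : ℕ}
    (f : ((⨂[k] _ : Fin s, V) ⊗[k] M₁) →ₗ[k] ((⨂[k] _ : Fin t, V) ⊗[k] M₂)) : Prop :=
  ∃ Δ : Subgroup Γ, Δ.FiniteIndex ∧ ∀ g ∈ Δ, ∀ x,
    f (TensorProduct.map (PiTensorProduct.map (fun _ => ρ g)) (σ₁ g) x) =
      χ g ^ c • TensorProduct.map (PiTensorProduct.map (fun _ => ρ g)) (σ₂ g) (f x)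

/-- `f₁ : V^{⊗ s} → V^{⊗ t}` is the product of `m` Tate classes of degree two. -/
def IsProductOfTwo (ρ : Representation k Γ V) (χ : Γ →* k) (ω : V →ₗ[k] V →ₗ[k] k) (m : ℕ)
    {s t : ℕ} (f : (⨂[k] _ : Fin s, V) →ₗ[k] (⨂[k] _ : Fin t, V)) : Prop :=
  ∃ (e : Fin m × Fin 2 ≃ Fin s ⊕ Fin t) (B : Fin m → V →ₗ[k] V →ₗ[k] k),
    (∀ l, IsTateForm ρ χ (B l)) ∧ ∀ (x : Fin s → V) (y : Fin t → V),
      pairing ω y (f (PiTensorProduct.tprod k x)) =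
        ∏ l, B l (Sum.elim x y (e (l, 0))) (Sum.elim x y (e (l, 1)))

/-- `u` is a homomorphism `M₁ → M₂ (c)` for a subgroup of finite index. -/
def IsHom (χ : Γ →* k) (σ₁ : Representation k Γ M₁) (σ₂ : Representation k Γ M₂) (c : ℤ)
    (u : M₁ →ₗ[k] M₂) : Prop :=
  ∃ Δ : Subgroup Γ, Δ.FiniteIndex ∧ ∀ g ∈ Δ, ∀ x, u (σ₁ g x) = χ g ^ c • σ₂ g (u x)

/-- All homomorphisms are combinations of the tensor products. -/
def HomsFromFactors (ρ : Representation k Γ V) (χ : Γ →* k) (ω : V →ₗ[k] V →ₗ[k] k)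
    (σ₁ : Representation k Γ M₁) (σ₂ : Representation k Γ M₂) : Prop :=
  ∀ (s t : ℕ) (c : ℤ) (f : ((⨂[k] _ : Fin s, V) ⊗[k] M₁) →ₗ[k] ((⨂[k] _ : Fin t, V) ⊗[k] M₂)),
    IsHomOver ρ χ σ₁ σ₂ c f →
      f ∈ Submodule.span k {f' | ∃ (m : ℕ) (f₁ : (⨂[k] _ : Fin s, V) →ₗ[k] (⨂[k] _ : Fin t, V))
        (f₂ : M₁ →ₗ[k] M₂), IsProductOfTwo ρ χ ω m f₁ ∧ IsHom χ σ₁ σ₂ (c + t - m) f₂ ∧
        f' = TensorProduct.map f₁ f₂}

end Pool.Agent.U400.HM
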