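import Mathlib
import Pool.Agent.W484.TB.Pair

/-!
# Eigenvalues of products of commuting operators
-/

set_option autoImplicit false

namespace Pool.Agent.U400.HM

open Polynomial Module Pool.Agent.W484.TB

/-- up to powers in the group generated by `E` and `u` -/
def InG (E : IntermediateField ℚ ℂ) {r : ℕ} (u : Fin r → ℂ) (ρ : ℂ) : Prop :=
  ∃ (N : ℕ) (y : ℂ) (m : Fin r → ℤ), 0 < N ∧ y ∈ E ∧ y ≠ 0 ∧ ρ ^ N = y * ∏ j, u j ^ m j

theorem InG.one (E : IntermediateField ℚ ℂ) {r : ℕ} (u : Fin r → ℂ) : InG E u 1 :=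
  ⟨1, 1, 0, one_pos, E.one_mem, one_ne_zero, by simp⟩

theorem InG.inv {E : IntermediateField ℚ ℂ} {r : ℕ} {u : Fin r → ℂ} {z : ℂ} (h : InG E u z) :
    InG E u z⁻¹ := by
  obtain ⟨N, y, m, h0, h1, h2, h3⟩ := h
  refine ⟨N, y⁻¹, fun j => -m j, h0, E.inv_mem h1, inv_ne_zero h2, ?_⟩
  rw [inv_pow, h3, mul_inv, ← Finset.prod_inv_distrib]
  simp only [zpow_neg]

theorem InG.mul {E : IntermediateField ℚ ℂ} {r : ℕ} {u : Fin r → ℂ} (hu : ∀ j, u j ≠ 0) {z w : ℂ}
    (h : InG E u z) (h' : InG E u w) : InG E u (z * w) := by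
  obtain ⟨N, y, m, h0, h1, h2, h3⟩ := h
  obtain ⟨N', y', m', h0', h1', h2', h3'⟩ := h'
  refine ⟨N * N', y ^ N' * y' ^ N, fun j => N' * m j + N * m' j, Nat.mul_pos h0 h0',
    mul_mem (pow_mem h1 _) (pow_mem h1' _), mul_ne_zero (pow_ne_zero _ h2)
      (pow_ne_zero _ h2'), ?_⟩
  have h4 : ∀ j, u j ^ ((N' : ℤ) * m j + N * m' j) = (u j ^ m j) ^ N' * (u j ^ m' j) ^ N := by
    intro j
    rw [zpow_add₀ (hu j), mul_comm (N' : ℤ), mul_comm (N : ℤ), zpow_mul, zpow_mul, zpow_natCast,
      zpow_natCast]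
  simp only [h4, Finset.prod_mul_distrib, Finset.prod_pow]
  rw [mul_pow, pow_mul, h3, mul_comm N N', pow_mul, h3', mul_pow, mul_pow]
  ring

theorem InG.ne {E : IntermediateField ℚ ℂ} {r : ℕ} {u : Fin r → ℂ} (hu : ∀ j, u j ≠ 0) {z : ℂ}
    (h : InG E u z) : z ≠ 0 := by
  obtain ⟨N, y, m, h0, h1, h2, h3⟩ := h
  rintro rfl
  rw [zero_pow h0.ne'] at h3
  exact mul_ne_zero h2 (Finset.prod_ne_zero_iff.2 fun j _ => zpow_ne_zero _ (hu j)) h3.symm

theorem InG.list {E : IntermediateField ℚ ℂ} {r : ℕ} {u : Fin r → ℂ} (hu : ∀ j, u j ≠ 0) :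
    ∀ l : List ℂ, (∀ z ∈ l, InG E u z) → InG E u l.prod := by
  intro l
  induction l with
  | nil => exact fun _ => InG.one E u
  | cons z l ih =>
    intro h
    rw [List.prod_cons]
    exact (h z List.mem_cons_self).mul hu (ih fun w hw => h w (List.mem_cons_of_mem _ hw))

/-- The eigenvalues of a product of commuting operators. -/
theorem ev_list {K W : Type*} [Field K] [IsAlgClosed K] [AddCommGroup W] [Module K W]
    [FiniteDimensional K W] (Q : K → Prop) (hQ0 : ∀ a, Q a → a ≠ 0) :
    ∀ (L : List (Module.End K W)), (∀ A ∈ L, ∀ B ∈ L, A * B = B * A) →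
      (∀ A ∈ L, ∀ (a : K) (w : W), w ≠ 0 → A w = a • w → Q a) →
      ∀ (U : Submodule K W), U ≠ ⊥ → (∀ A ∈ L, ∀ w ∈ U, A w ∈ U) →
      ∀ μ : K, (∀ w ∈ U, L.prod w = μ • w) → ∃ l : List K, (∀ a ∈ l, Q a) ∧ μ = l.prod := by
  intro L
  induction L with
  | nil =>
    intro _ _ U hU _ μ hμ
    obtain ⟨w, hw, hw0⟩ := Submodule.exists_mem_ne_zero_of_ne_bot hU
    refine ⟨[], by simp, ?_⟩
    have h1 := hμ w hw
    rw [List.prod_nil, Module.End.one_apply] at h1
    have h2 : (1 - μ) • w = 0 := by rw [sub_smul, one_smul, ← h1, sub_self]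
    rw [List.prod_nil]
    exact (sub_eq_zero.1 ((smul_eq_zero.1 h2).resolve_right hw0)).symm
  | cons A L ih =>
    intro hcomm hQ U hU hstab μ hμ
    have hA := hstab A List.mem_cons_self
    have hnt : Nontrivial U := (Submodule.nontrivial_iff_ne_bot).2 hU
    obtain ⟨a, ha⟩ := Module.End.exists_eigenvalue (A.restrict hA)
    obtain ⟨w₀, hw₀⟩ := ha.exists_hasEigenvector
    have hw1 : A (w₀ : W) = a • (w₀ : W) := by
      have h1 := congrArg (Subtype.val) hw₀.apply_eq_smul
      exact h1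
    have hw0 : (w₀ : W) ≠ 0 := fun h => hw₀.2 (Subtype.ext h)
    have hQa : Q a := hQ A List.mem_cons_self a w₀ hw0 hw1
    have ha0 := hQ0 a hQa
    let U' : Submodule K W := U ⊓ LinearMap.ker (A - a • (1 : Module.End K W))
    have hmem : ∀ w, w ∈ U' ↔ w ∈ U ∧ A w = a • w := by
      intro w
      rw [Submodule.mem_inf, LinearMap.mem_ker, LinearMap.sub_apply, LinearMap.smul_apply,
        Module.End.one_apply, sub_eq_zero]
    have hU' : U' ≠ ⊥ := by
      intro h
      apply hw0
      have : (w₀ : W) ∈ U' := (hmem _).2 ⟨w₀.2, hw1⟩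
      rw [h, Submodule.mem_bot] at this
      exact this
    have hcommA : ∀ B ∈ L, ∀ w, A (B w) = B (A w) := by
      intro B hB w
      have h1 := hcomm A List.mem_cons_self B (List.mem_cons_of_mem _ hB)
      exact congrArg (fun T : Module.End K W => T w) h1
    have hcommL : Commute A L.prod := by
      refine Commute.list_prod_right _ _ fun B hB => ?_
      exact hcomm A List.mem_cons_self B (List.mem_cons_of_mem _ hB)
    obtain ⟨l, hl, hμl⟩ := ih (fun B hB C hC => hcomm B (List.mem_cons_of_mem _ hB) C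
      (List.mem_cons_of_mem _ hC)) (fun B hB => hQ B (List.mem_cons_of_mem _ hB)) U' hU'
      (fun B hB w hw => by
        rw [hmem] at hw ⊢
        refine ⟨hstab B (List.mem_cons_of_mem _ hB) w hw.1, ?_⟩
        rw [hcommA B hB, hw.2, map_smul]) (μ / a) (fun w hw => by
        rw [hmem] at hw
        have h1 := hμ w hw.1
        rw [List.prod_cons, hcommL.eq, Module.End.mul_apply, hw.2, map_smul] at h1
        rw [div_eq_inv_mul, mul_smul, ← h1, smul_smul, inv_mul_cancel₀ ha0, one_smul])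
    refine ⟨a :: l, ?_, ?_⟩
    · intro b hb
      rcases List.mem_cons.1 hb with rfl | hb
      · exact hQa
      · exact hl b hb
    · rw [List.prod_cons, ← hμl]
      field_simp

/-- polynomials of eigenvalues -/
theorem aeval_eigen {k K W : Type*} [Field k] [Field K] [Algebra k K] [AddCommGroup W] [Module K W]
    (A : Module.End K W) (a : K) (w : W) (hw : A w = a • w) (P : K[X]) :
    aeval A P w = (P.eval a) • w := by
  have hpow : ∀ n : ℕ, (A ^ n) w = a ^ n • w := by
    intro n
    induction n with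
    | zero => simp
    | succ n ih => rw [pow_succ, Module.End.mul_apply, hw, map_smul, ih, smul_smul, pow_succ,
        mul_comm]
  rw [aeval_eq_sum_range, LinearMap.sum_apply, eval_eq_sum_range, Finset.sum_smul]
  refine Finset.sum_congr rfl fun n _ => ?_
  rw [LinearMap.smul_apply, hpow, smul_smul]

variable {k : Type*} [Field k] [CharZero k] {W : Type*} [AddCommGroup W] [Module k W]
  [FiniteDimensional k W]

/-- The rational polynomial of an eigenvalue of a product of commuting operators. -/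
theorem exists_poly (E : IntermediateField ℚ ℂ) {r : ℕ} (P : ℚ[X])
    (hrank : RankLEOver E r {z : ℂ | aeval z P = 0})
    (L : List (Module.End k W)) (hL : ∀ A ∈ L, ∀ B ∈ L, A * B = B * A)
    (hA : ∀ A ∈ L, aeval A (P.map (algebraMap ℚ k)) = 0 ∨
      ∃ B, B * A = 1 ∧ aeval B (P.map (algebraMap ℚ k)) = 0)
    {K : Type*} [Field K] [CharZero K] [Algebra k K] (ρ' : K)
    (hρ : (L.prod.charpoly.map (algebraMap k K)).IsRoot ρ') :
    ∃ P' : ℚ[X], P' ≠ 0 ∧ RankLEOver E r {z : ℂ | aeval z P' = 0} ∧ aeval ρ' P' = 0 := by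
  classical
  obtain ⟨u, hu, hP⟩ := hrank
  have hPG : ∀ z : ℂ, aeval z P = 0 → InG E u z := fun z hz => hP z hz
  let Ω := AlgebraicClosure K
  have : CharZero Ω := charZero_of_injective_algebraMap (algebraMap K Ω).injective
  let bc : Module.End k W →ₐ[k] Module.End Ω (TensorProduct k Ω W) :=
    Module.End.baseChangeHom k Ω W
  have hQP : ∀ (T : Module.End k W), aeval T (P.map (algebraMap ℚ k)) = 0 →
      ∀ (a : Ω) (w : TensorProduct k Ω W), w ≠ 0 → bc T w = a • w → aeval a P = 0 := by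
    intro T hT a w hw0 hw
    have h1 : aeval (bc T) (P.map (algebraMap ℚ Ω)) = 0 := by
      have h2 := Polynomial.aeval_algHom_apply bc T (P.map (algebraMap ℚ k))
      rw [hT, map_zero] at h2
      rw [← h2, aeval_def, aeval_def, eval₂_map, eval₂_map]
      congr 1
      exact RingHom.ext_rat _ _
    have h3 := aeval_eigen (k := k) (bc T) a w hw (P.map (algebraMap ℚ Ω))
    rw [h1, LinearMap.zero_apply] at h3
    have h4 := (smul_eq_zero.1 h3.symm).resolve_right hw0
    rwa [eval_map, ← aeval_def] at h4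
  let Q : Ω → Prop := fun a => a ≠ 0 ∧ (aeval a P = 0 ∨ aeval a⁻¹ P = 0)
  have hP00 : P.coeff 0 ≠ 0 := by
    intro h
    refine (hPG 0 ?_).ne hu rfl
    rw [aeval_def, eval₂_at_zero, h, map_zero]
  have hnz : ∀ a : Ω, aeval a P = 0 → a ≠ 0 := by
    rintro a ha rfl
    rw [aeval_def, eval₂_at_zero] at ha
    exact hP00 ((map_eq_zero _).1 ha)
  have hch : ((bc L.prod).charpoly).IsRoot (algebraMap K Ω ρ') := by
    have h1 : (bc L.prod).charpoly = L.prod.charpoly.map (algebraMap k Ω) :=
      LinearMap.charpoly_baseChange _ _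
    rw [h1, IsScalarTower.algebraMap_eq k K Ω, ← Polynomial.map_map]
    exact hρ.map
  have hev : (bc L.prod).HasEigenvalue (algebraMap K Ω ρ') := by
    rw [Module.End.hasEigenvalue_iff_isRoot_charpoly]
    exact hch
  have hprod : (L.map bc).prod = bc L.prod := (map_list_prod bc L).symm
  have hcomm : ∀ A ∈ L.map bc, ∀ B ∈ L.map bc, A * B = B * A := by
    intro A hA B hB
    obtain ⟨A', hA', rfl⟩ := List.mem_map.1 hA
    obtain ⟨B', hB', rfl⟩ := List.mem_map.1 hB
    rw [← map_mul, ← map_mul, hL A' hA' B' hB']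
  obtain ⟨l, hl, hρl⟩ := ev_list Q (fun a h => h.1) (L.map bc) hcomm (by
      intro A hA' a w hw0 hw
      obtain ⟨A, hAL, rfl⟩ := List.mem_map.1 hA'
      rcases hA A hAL with h | ⟨B, hBA, hB⟩
      · have := hQP A h a w hw0 hw
        exact ⟨hnz a this, Or.inl this⟩
      · have h1 : bc B (bc A w) = w := by
          rw [← Module.End.mul_apply, ← map_mul, hBA, map_one, Module.End.one_apply]
        have ha0 : a ≠ 0 := by
          rintro rfl
          rw [zero_smul] at hw
          rw [hw, map_zero] at h1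
          exact hw0 h1.symm
        have h2 : bc B w = a⁻¹ • w := by
          rw [hw, map_smul] at h1
          conv_rhs => rw [← h1]
          rw [smul_smul, inv_mul_cancel₀ ha0, one_smul]
        exact ⟨ha0, Or.inr (hQP B hB a⁻¹ w hw0 h2)⟩)
    ((bc L.prod).eigenspace (algebraMap K Ω ρ')) hev (by
      intro A hA w hw
      rw [Module.End.mem_eigenspace_iff] at hw ⊢
      have h1 : bc L.prod * A = A * bc L.prod := by
        rw [← hprod]
        exact (Commute.list_prod_right _ _ fun B hB => hcomm A hA B hB).symm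
      rw [← Module.End.mul_apply, h1, Module.End.mul_apply, hw, map_smul])
    (algebraMap K Ω ρ') (by
      intro w hw
      rw [Module.End.mem_eigenspace_iff] at hw
      rw [hprod]
      exact hw)
  -- the algebraic numbers
  have halg : Algebra.IsAlgebraic ℚ (algebraicClosure ℚ Ω) := algebraicClosure.isAlgebraic ℚ Ω
  have hP0 : P ≠ 0 := by
    rintro rfl
    exact hP00 (coeff_zero 0)
  have hmem : ∀ a : Ω, aeval a P = 0 → a ∈ algebraicClosure ℚ Ω := by
    intro a ha
    rw [mem_algebraicClosure_iff]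
    exact ⟨P, hP0, ha⟩
  have hmemQ : ∀ a : Ω, Q a → a ∈ algebraicClosure ℚ Ω := by
    rintro a ⟨-, h | h⟩
    · exact hmem a h
    · rw [← inv_inv a]
      exact inv_mem (hmem _ h)
  have hlist : ∀ l : List Ω, (∀ a ∈ l, Q a) → ∃ l' : List (algebraicClosure ℚ Ω),
      (algebraMap (algebraicClosure ℚ Ω) Ω l'.prod) = l.prod ∧
        ∀ a ∈ l', aeval a P = 0 ∨ aeval a⁻¹ P = 0 := by
    intro l
    induction l with
    | nil => exact fun _ => ⟨[], by simp, by simp⟩
    | cons a l ih =>
      intro h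
      obtain ⟨l', h1, h2⟩ := ih fun b hb => h b (List.mem_cons_of_mem _ hb)
      have hQa := h a List.mem_cons_self
      refine ⟨⟨a, hmemQ a hQa⟩ :: l', ?_, ?_⟩
      · rw [List.prod_cons, List.prod_cons, map_mul, h1]
        rfl
      · intro b hb
        rcases List.mem_cons.1 hb with rfl | hb
        · refine hQa.2.imp (fun h3 => ?_) (fun h3 => ?_)
          · apply (algebraMap (algebraicClosure ℚ Ω) Ω).injective
            rw [← Polynomial.aeval_algebraMap_apply, map_zero]
            exact h3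
          · apply (algebraMap (algebraicClosure ℚ Ω) Ω).injective
            rw [← Polynomial.aeval_algebraMap_apply, map_zero, map_inv₀]
            exact h3
        · exact h2 b hb
  obtain ⟨l', hl', hl''⟩ := hlist l hl
  rw [← hρl] at hl'
  have hint : IsIntegral ℚ l'.prod := (halg.isAlgebraic l'.prod).isIntegral
  refine ⟨minpoly ℚ l'.prod, minpoly.ne_zero hint, ⟨u, hu, fun z hz => ?_⟩, ?_⟩
  · obtain ⟨φ, hφ⟩ : ∃ φ : algebraicClosure ℚ Ω →ₐ[ℚ] ℂ, φ l'.prod = z :=
      IntermediateField.exists_algHom_of_splits_of_aeval (fun s =>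
        ⟨(halg.isAlgebraic s).isIntegral, IsAlgClosed.splits _⟩) hz
    have h1 : InG E u z := by
      rw [← hφ, map_list_prod]
      refine InG.list hu _ fun w hw => ?_
      obtain ⟨a, ha, rfl⟩ := List.mem_map.1 hw
      rcases hl'' a ha with h | h
      · refine hPG _ ?_
        rw [Polynomial.aeval_algHom_apply, h, map_zero]
      · rw [← inv_inv (φ a)]
        refine InG.inv (hPG _ ?_)
        rw [← map_inv₀, Polynomial.aeval_algHom_apply, h, map_zero]
    exact h1
  · apply (algebraMap K Ω).injective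
    rw [← Polynomial.aeval_algebraMap_apply, ← hl', Polynomial.aeval_algebraMap_apply,
      minpoly.aeval, map_zero, map_zero]

end Pool.Agent.U400.HM
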