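import Mathlib
import Pool.Agent.U400.HM.Eig

/-!
# Frobenius eigenvalues on the homomorphisms between tensor powers
-/

set_option autoImplicit false

namespace Pool.Agent.U400.HM

open Polynomial Module Pool.Agent.W484.TB

section

variable {k : Type*} [Field k] {N : Type*} [AddCommGroup N] [Module k N]

/-- `T` at the place `i` of the tensor power -/
noncomputable def att {a : ℕ} (i : Fin a) :
    Module.End k N →ₗ[k] Module.End k (PiTensorProduct k (fun _ : Fin a => N)) where
  toFun T := PiTensorProduct.map (Function.update (fun _ => 1) i T)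
  map_add' _ _ := PiTensorProduct.map_update_add _ _ _ _
  map_smul' _ _ := PiTensorProduct.map_update_smul _ _ _ _

theorem att_apply {a : ℕ} (i : Fin a) (T : Module.End k N) :
    att i T = PiTensorProduct.map (Function.update (fun _ => (1 : Module.End k N)) i T) := rfl

theorem att_one {a : ℕ} (i : Fin a) : att i (1 : Module.End k N) = 1 := by
  rw [att_apply]
  have h : Function.update (fun _ : Fin a => (1 : Module.End k N)) i 1 = fun _ => 1 := by
    funext j
    by_cases hj : j = i
    · subst hj; rw [Function.update_self]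
    · rw [Function.update_of_ne hj]
  rw [h]
  exact PiTensorProduct.map_one

theorem att_mul {a : ℕ} (i : Fin a) (S T : Module.End k N) : att i (S * T) = att i S * att i T := by
  rw [att_apply, att_apply, att_apply, ← PiTensorProduct.map_mul]
  congr 1
  funext j
  by_cases hj : j = i
  · subst hj; rw [Function.update_self, Function.update_self, Function.update_self]
  · rw [Function.update_of_ne hj, Function.update_of_ne hj, Function.update_of_ne hj, mul_one]

theorem att_pow {a : ℕ} (i : Fin a) (T : Module.End k N) (n : ℕ) : att i (T ^ n) = att i T ^ n := by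
  induction n with
  | zero => rw [pow_zero, pow_zero, att_one]
  | succ n ih => rw [pow_succ, att_mul, ih, pow_succ]

theorem att_comm {a : ℕ} (i j : Fin a) (T : Module.End k N) :
    att i T * att j T = att j T * att i T := by
  rw [att_apply, att_apply, ← PiTensorProduct.map_mul, ← PiTensorProduct.map_mul]
  congr 1
  funext l
  by_cases hi : l = i
  · subst hi
    by_cases hj : l = j
    · subst hj
      rfl
    · rw [Function.update_self, Function.update_of_ne hj, mul_one, one_mul]
  · rw [Function.update_of_ne hi, one_mul, mul_one]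

theorem att_list {a : ℕ} (T : Module.End k N) : ∀ l : List (Fin a), l.Nodup →
    (l.map (fun i => att i T)).prod =
      PiTensorProduct.map (fun i => if i ∈ l then T else (1 : Module.End k N)) := by
  intro l
  induction l with
  | nil =>
    intro _
    rw [List.map_nil, List.prod_nil]
    symm
    have h : (fun i : Fin a => if i ∈ ([] : List (Fin a)) then T else (1 : Module.End k N)) =
        fun _ => 1 := by
      funext i
      rw [if_neg List.not_mem_nil]
    rw [h]
    exact PiTensorProduct.map_one
  | cons j l ih =>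
    intro hn
    rw [List.nodup_cons] at hn
    rw [List.map_cons, List.prod_cons, ih hn.2, att_apply, ← PiTensorProduct.map_mul]
    congr 1
    funext i
    by_cases hij : i = j
    · subst hij
      rw [Function.update_self, if_neg hn.1, if_pos List.mem_cons_self, mul_one]
    · rw [Function.update_of_ne hij, one_mul]
      by_cases hi : i ∈ l
      · rw [if_pos hi, if_pos (List.mem_cons_of_mem _ hi)]
      · rw [if_neg hi, if_neg]
        rw [List.mem_cons, not_or]
        exact ⟨hij, hi⟩

theorem att_all {a : ℕ} (T : Module.End k N) (l : List (Fin a)) (hl : l.Nodup) (hm : ∀ i, i ∈ l) :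
    (l.map (fun i => att i T)).prod = PiTensorProduct.map (fun _ => T) := by
  rw [att_list T l hl]
  congr 1
  funext i
  rw [if_pos (hm i)]

/-- A linear map which is multiplicative on the powers of `T`. -/
theorem aeval_lin {A B : Type*} [Ring A] [Algebra k A] [Ring B] [Algebra k B] (F : A → B)
    (hadd : ∀ x y, F (x + y) = F x + F y) (hsmul : ∀ (c : k) x, F (c • x) = c • F x)
    (T : A) (h : ∀ n : ℕ, F (T ^ n) = F T ^ n) (p : k[X]) (hp : aeval T p = 0) :
    aeval (F T) p = 0 := by
  let G : A →ₗ[k] B := { toFun := F, map_add' := hadd, map_smul' := hsmul }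
  have h1 : G (aeval T p) = aeval (F T) p := by
    rw [aeval_eq_sum_range, aeval_eq_sum_range, map_sum]
    refine Finset.sum_congr rfl fun n _ => ?_
    rw [map_smul]
    exact congrArg _ (h n)
  rw [← h1, hp, map_zero]

variable {X Y : Type*} [AddCommGroup X] [Module k X] [AddCommGroup Y] [Module k Y]

/-- composition on the left -/
def post : Module.End k Y →ₗ[k] Module.End k (X →ₗ[k] Y) := LinearMap.llcomp k X Y Y

/-- composition on the right -/
def pre : Module.End k X →ₗ[k] Module.End k (X →ₗ[k] Y) := (LinearMap.llcomp k X X Y).flip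

theorem post_apply (T : Module.End k Y) (u : X →ₗ[k] Y) : post T u = T ∘ₗ u := rfl

theorem pre_apply (T : Module.End k X) (u : X →ₗ[k] Y) : pre T u = u ∘ₗ T := rfl

theorem post_mul (S T : Module.End k Y) : (post (S * T) : Module.End k (X →ₗ[k] Y)) =
    post S * post T := rfl

theorem pre_mul (S T : Module.End k X) : (pre (S * T) : Module.End k (X →ₗ[k] Y)) =
    pre T * pre S := rfl

theorem post_one : (post 1 : Module.End k (X →ₗ[k] Y)) = 1 := rfl

theorem pre_one : (pre 1 : Module.End k (X →ₗ[k] Y)) = 1 := rfl

theorem pre_pow (T : Module.End k X) (n : ℕ) : (pre (T ^ n) : Module.End k (X →ₗ[k] Y)) =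
    pre T ^ n := by
  induction n with
  | zero => rw [pow_zero, pow_zero, pre_one]
  | succ n ih => rw [pow_succ, pre_mul, ih, pow_succ']

theorem post_pow (T : Module.End k Y) (n : ℕ) : (post (T ^ n) : Module.End k (X →ₗ[k] Y)) =
    post T ^ n := by
  induction n with
  | zero => rw [pow_zero, pow_zero, post_one]
  | succ n ih => rw [pow_succ, post_mul, ih, pow_succ]

theorem pre_post (S : Module.End k X) (T : Module.End k Y) :
    (pre S : Module.End k (X →ₗ[k] Y)) * post T = post T * pre S := rfl

theorem post_list : ∀ l : List (Module.End k Y),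
    (l.map (fun T => (post T : Module.End k (X →ₗ[k] Y)))).prod = post l.prod := by
  intro l
  induction l with
  | nil => rfl
  | cons T l ih => rw [List.map_cons, List.prod_cons, ih, List.prod_cons, post_mul]

theorem pre_list : ∀ l : List (Module.End k X),
    (l.map (fun T => (pre T : Module.End k (X →ₗ[k] Y)))).prod = pre l.reverse.prod := by
  intro l
  induction l with
  | nil => rfl
  | cons T l ih =>
    rw [List.map_cons, List.prod_cons, ih, List.reverse_cons, List.prod_append, List.prod_singleton,
      pre_mul]

end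

section

variable {k : Type*} [Field k] {N : Type*} [AddCommGroup N] [Module k N] {Γ : Type*} [Group Γ]

/-- The tensor powers of a representation. -/
noncomputable def tpow (σ : Representation k Γ N) (a : ℕ) :
    Representation k Γ (PiTensorProduct k (fun _ : Fin a => N)) where
  toFun s := PiTensorProduct.map (fun _ => σ s)
  map_one' := by
    rw [map_one]
    exact PiTensorProduct.map_one
  map_mul' s t := by
    rw [map_mul, ← PiTensorProduct.map_mul]

theorem tpow_apply (σ : Representation k Γ N) (a : ℕ) (s : Γ) :
    tpow σ a s = PiTensorProduct.map (fun _ => σ s) := rfl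

variable [CharZero k] [FiniteDimensional k N]

/-- **The eigenvalues on the homomorphisms between tensor powers.** -/
theorem hom_poly (E : IntermediateField ℚ ℂ) {r : ℕ} (P : ℚ[X])
    (hrank : RankLEOver E r {z : ℂ | aeval z P = 0}) (σ : Representation k Γ N) (γ : Γ)
    (hP : aeval (σ γ⁻¹) (P.map (algebraMap ℚ k)) = 0) (a b : ℕ)
    {K : Type*} [Field K] [CharZero K] [Algebra k K] (ρ' : K)
    (hρ : ((((tpow σ a).linHom (tpow σ b)) γ⁻¹).charpoly.map (algebraMap k K)).IsRoot ρ') :
    ∃ P' : ℚ[X], P' ≠ 0 ∧ RankLEOver E r {z : ℂ | aeval z P' = 0} ∧ aeval ρ' P' = 0 := by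
  classical
  let A := PiTensorProduct k (fun _ : Fin a => N)
  let B := PiTensorProduct k (fun _ : Fin b => N)
  let L₁ : List (Module.End k (A →ₗ[k] B)) :=
    ((List.finRange b).map (fun i => att i (σ γ⁻¹))).map (fun T => post T)
  let L₂ : List (Module.End k (A →ₗ[k] B)) :=
    ((List.finRange a).map (fun i => att i (σ γ))).map (fun T => pre T)
  have h1 : L₁.prod = post (tpow σ b γ⁻¹) := by
    change (List.map _ _).prod = _
    rw [post_list, att_all _ _ (List.nodup_finRange b) (List.mem_finRange), tpow_apply]
  have h2 : L₂.prod = pre (tpow σ a γ) := by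
    change (List.map _ _).prod = _
    rw [pre_list, ← List.map_reverse, att_all _ _ (List.nodup_reverse.2 (List.nodup_finRange a))
      (fun i => List.mem_reverse.2 (List.mem_finRange i)), tpow_apply]
  have h3 : (L₁ ++ L₂).prod = ((tpow σ a).linHom (tpow σ b)) γ⁻¹ := by
    rw [List.prod_append, h1, h2]
    refine LinearMap.ext fun u => ?_
    rw [Representation.linHom_apply, inv_inv]
    rfl
  rw [← h3] at hρ
  have hL₁ : ∀ T ∈ L₁, ∃ i : Fin b, T = post (att i (σ γ⁻¹)) := by
    intro T hT
    obtain ⟨T', hT', rfl⟩ := List.mem_map.1 hT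
    obtain ⟨i, -, rfl⟩ := List.mem_map.1 hT'
    exact ⟨i, rfl⟩
  have hL₂ : ∀ T ∈ L₂, ∃ i : Fin a, T = pre (att i (σ γ)) := by
    intro T hT
    obtain ⟨T', hT', rfl⟩ := List.mem_map.1 hT
    obtain ⟨i, -, rfl⟩ := List.mem_map.1 hT'
    exact ⟨i, rfl⟩
  refine exists_poly E P hrank (L₁ ++ L₂) ?_ ?_ ρ' hρ
  · intro S hS T hT
    rcases List.mem_append.1 hS with hS | hS <;> rcases List.mem_append.1 hT with hT | hT
    · obtain ⟨i, rfl⟩ := hL₁ S hS
      obtain ⟨j, rfl⟩ := hL₁ T hT
      rw [← post_mul, ← post_mul, att_comm]
    · obtain ⟨i, rfl⟩ := hL₁ S hS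
      obtain ⟨j, rfl⟩ := hL₂ T hT
      rw [pre_post]
    · obtain ⟨i, rfl⟩ := hL₂ S hS
      obtain ⟨j, rfl⟩ := hL₁ T hT
      rw [pre_post]
    · obtain ⟨i, rfl⟩ := hL₂ S hS
      obtain ⟨j, rfl⟩ := hL₂ T hT
      rw [← pre_mul, ← pre_mul, att_comm]
  · intro T hT
    rcases List.mem_append.1 hT with hT | hT
    · left
      obtain ⟨i, rfl⟩ := hL₁ T hT
      exact aeval_lin (fun T : Module.End k N => (post (att i T) : Module.End k (A →ₗ[k] B)))
        (fun x y => by simp only [map_add]) (fun c x => by simp only [map_smul]) (σ γ⁻¹)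
        (fun n => by simp only [att_pow, post_pow]) _ hP
    · right
      obtain ⟨i, rfl⟩ := hL₂ T hT
      refine ⟨pre (att i (σ γ⁻¹)), ?_, ?_⟩
      · rw [← pre_mul, ← att_mul, ← map_mul, mul_inv_cancel, map_one, att_one, pre_one]
      · exact aeval_lin (fun T : Module.End k N => (pre (att i T) : Module.End k (A →ₗ[k] B)))
          (fun x y => by simp only [map_add]) (fun c x => by simp only [map_smul]) (σ γ⁻¹)
          (fun n => by simp only [att_pow, pre_pow]) _ hP

end

end Pool.Agent.U400.HM
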