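import Mathlib
import Pool.Agent.N166.CZ.Alt
import Pool.Agent.H204R3.GP.Hom
import Pool.Agent.U400.HM.Tens

/-!
# Homomorphisms between `V^{⊗ s} ⊗ M₁` and `V^{⊗ t} ⊗ M₂`
-/

set_option autoImplicit false
set_option linter.unusedSectionVars false

namespace Pool.Agent.U400.HM

open Polynomial Module TensorProduct Pool.Agent.H204R3.GP Pool.Agent.N166.CZ Pool.Agent.H204R3.SP

noncomputable section

variable {k : Type*} [Field k] [CharZero k] {V : Type*} [AddCommGroup V] [Module k V]
  {Γ : Type*} [Group Γ] (ρ : Representation k Γ V) (χ : Γ →* k)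

theorem PT_tate {m : ℕ} {φ : MultilinearMap k (fun _ : Fin m × Fin 2 => V) k} (hφ : φ ∈ PT ρ χ m) :
    ∃ Δ : Subgroup Γ, Δ.FiniteIndex ∧ ∀ s ∈ Δ, ∀ v : Fin m × Fin 2 → V,
      φ (fun l => ρ s (v l)) = χ s ^ m * φ v := by
  obtain ⟨σ, B, hB, rfl⟩ := hφ
  choose Δ hΔ h using hB
  refine ⟨⨅ l, Δ l, Subgroup.finiteIndex_iInf hΔ, fun s hs v => ?_⟩
  rw [mmG_apply, mmG_apply]
  have h1 : ∀ l, B l (ρ s (v (σ (l, 0)))) (ρ s (v (σ (l, 1)))) =
      χ s * B l (v (σ (l, 0))) (v (σ (l, 1))) := fun l => h l s ((Subgroup.mem_iInf.1 hs) l) _ _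
  rw [Finset.prod_congr rfl (fun l _ => h1 l), Finset.prod_mul_distrib, Finset.prod_const,
    Finset.card_univ, Fintype.card_fin]

variable {H : Type*} [AddCommGroup H] [Module k H] [FiniteDimensional k H]
  (τ : Representation k Γ H)

/-- A multilinear map with values in `H` fixed by a subgroup of finite index (weight `c`). -/
def IsTateM {κ : Type} (c : ℤ) (F : MultilinearMap k (fun _ : κ => V) H) : Prop :=
  ∃ Δ : Subgroup Γ, Δ.FiniteIndex ∧ ∀ s ∈ Δ, ∀ v : κ → V,
    F (fun l => ρ s (v l)) = χ s ^ c • τ s (F v)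

/-- coordinates -/
def crdM {d : ℕ} (bH : Basis (Fin d) k H) {κ : Type} (F : MultilinearMap k (fun _ : κ => V) H)
    (j : Fin d) : MultilinearMap k (fun _ : κ => V) k := (bH.coord j).compMultilinearMap F

theorem crdM_apply {d : ℕ} (bH : Basis (Fin d) k H) {κ : Type}
    (F : MultilinearMap k (fun _ : κ => V) H) (j : Fin d) (v : κ → V) :
    crdM bH F j v = bH.repr (F v) j := rfl

theorem isTateF_crdM {d : ℕ} (bH : Basis (Fin d) k H) {κ : Type} {c : ℤ}
    {F : MultilinearMap k (fun _ : κ => V) H} (hF : IsTateM ρ χ τ c F) :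
    IsTateF ρ χ (matS τ bH) c (crdM bH F) := by
  obtain ⟨Δ, hΔ, hF⟩ := hF
  refine ⟨Δ, hΔ, fun s hs v i => ?_⟩
  have h1 := hF s hs v
  rw [crdM_apply, h1, map_smul, Finsupp.smul_apply, smul_eq_mul, matS_apply]
  rfl

/-- The core statement. -/
def CoreFor : Prop :=
  ∀ (d : ℕ) (bH : Basis (Fin d) k H),
      (∀ (m : ℕ) (c : ℤ) (φ : Fin d → MultilinearMap k (fun _ : Fin m × Fin 2 => V) k),
        IsTateF ρ χ (matS τ bH) c φ → ∀ i, φ i ∈ Submodule.span k (PT ρ χ m)) ∧
      ∀ (κ : Type) (_ : Fintype κ) (_ : DecidableEq κ) (c : ℤ)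
        (φ : Fin d → MultilinearMap k (fun _ : κ => V) k), Odd (Fintype.card κ) →
        IsTateF ρ χ (matS τ bH) c φ → ∀ i, φ i = 0

theorem odd_zero (h : CoreFor ρ χ τ) {κ : Type} [Fintype κ] [DecidableEq κ]
    (hκ : Odd (Fintype.card κ)) {c : ℤ} {F : MultilinearMap k (fun _ : κ => V) H}
    (hF : IsTateM ρ χ τ c F) (v : κ → V) : F v = 0 := by
  let bH := Module.finBasis k H
  have h1 := (h _ bH).2 κ inferInstance inferInstance c _ hκ (isTateF_crdM ρ χ τ bH hF)
  apply bH.repr.injective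
  ext j
  have h2 := congrArg (fun g : MultilinearMap k (fun _ : κ => V) k => g v) (h1 j)
  rw [map_zero, Finsupp.zero_apply]
  exact h2

theorem even_sum (h : CoreFor ρ χ τ) {m : ℕ} {c : ℤ}
    {F : MultilinearMap k (fun _ : Fin m × Fin 2 => V) H} (hF : IsTateM ρ χ τ c F) :
    ∃ (T : Finset (PT ρ χ m)) (z : PT ρ χ m → H),
      (∀ w ∈ T, ∃ Δ : Subgroup Γ, Δ.FiniteIndex ∧ ∀ s ∈ Δ, χ s ^ (c - m) • τ s (z w) = z w) ∧
      ∀ v, F v = ∑ w ∈ T, (w : MultilinearMap k (fun _ : Fin m × Fin 2 => V) k) v • z w := by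
  classical
  let bH := Module.finBasis k H
  have h1 : ∀ j, crdM bH F j ∈ Submodule.span k (PT ρ χ m) :=
    (h _ bH).1 m c _ (isTateF_crdM ρ χ τ bH hF)
  obtain ⟨b, hbW, hbs, hbi⟩ := exists_linearIndependent k (PT ρ χ m)
  have h2 : ∀ j, ∃ l : b →₀ k, crdM bH F j = Finsupp.linearCombination k
      ((↑) : b → MultilinearMap k (fun _ : Fin m × Fin 2 => V) k) l := by
    intro j
    have h3 := h1 j
    rw [← hbs, ← Subtype.range_coe (s := b), Finsupp.mem_span_range_iff_exists_finsupp] at h3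
    obtain ⟨l, hl⟩ := h3
    exact ⟨l, by rw [← hl, Finsupp.linearCombination_apply]⟩
  choose l hl using h2
  let T : Finset b := Finset.univ.biUnion fun j => (l j).support
  let z : b → H := fun w => ∑ j, l j w • bH j
  have hcr : ∀ j v, crdM bH F j v =
      ∑ w ∈ T, l j w * (w : MultilinearMap k (fun _ : Fin m × Fin 2 => V) k) v := by
    intro j v
    have hsub : (l j).support ⊆ T :=
      Finset.subset_biUnion_of_mem (fun j => (l j).support) (Finset.mem_univ j)
    rw [hl j, Finsupp.linearCombination_apply, Finsupp.sum_of_support_subset (l j) hsub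
      (fun w a => a • (w : MultilinearMap k (fun _ : Fin m × Fin 2 => V) k))
      (fun w _ => zero_smul k _), MultilinearMap.sum_apply]
    rfl
  have hfv : ∀ v, F v =
      ∑ w ∈ T, (w : MultilinearMap k (fun _ : Fin m × Fin 2 => V) k) v • z w := by
    intro v
    have h3 : F v = ∑ j, crdM bH F j v • bH j := (bH.sum_repr (F v)).symm
    rw [h3]
    simp only [hcr, z, Finset.sum_smul, Finset.smul_sum]
    rw [Finset.sum_comm]
    refine Finset.sum_congr rfl fun w _ => Finset.sum_congr rfl fun j _ => ?_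
    rw [smul_smul, mul_comm]
  obtain ⟨Δ, hΔ, hΔf⟩ := hF
  choose Δw hΔw hΔw' using fun w : b => PT_tate ρ χ (hbW w.2)
  have hz : ∀ w ∈ T, ∃ Δ : Subgroup Γ, Δ.FiniteIndex ∧ ∀ s ∈ Δ,
      χ s ^ (c - m) • τ s (z w) = z w := by
    intro w₀ hw₀
    refine ⟨Δ ⊓ ⨅ w : T, Δw w, ?_, fun s hs => ?_⟩
    · have : (⨅ w : T, Δw w).FiniteIndex := Subgroup.finiteIndex_iInf fun w => hΔw _
      infer_instance
    · let u : b → H := fun w => χ s ^ c • τ s (z w) - χ s ^ m • z w
      have h3 : ∀ v, ∑ w ∈ T, (w : MultilinearMap k (fun _ : Fin m × Fin 2 => V) k) v • u w = 0 := by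
        intro v
        have h4 := hΔf s hs.1 v
        rw [hfv, hfv, map_sum, Finset.smul_sum] at h4
        have h5 : ∀ w ∈ T, (w : MultilinearMap k (fun _ : Fin m × Fin 2 => V) k)
            (fun l => ρ s (v l)) =
            χ s ^ m * (w : MultilinearMap k (fun _ : Fin m × Fin 2 => V) k) v := fun w hw =>
          hΔw' w s ((Subgroup.mem_iInf.1 hs.2) ⟨w, hw⟩) v
        rw [← sub_eq_zero.2 h4.symm, ← Finset.sum_sub_distrib]
        refine Finset.sum_congr rfl fun w hw => ?_
        rw [h5 w hw, map_smul]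
        simp only [u]
        rw [smul_sub, smul_smul, smul_smul, smul_smul, mul_comm (χ s ^ c),
          mul_comm (χ s ^ m)]
      have h6 : u w₀ = 0 := by
        apply bH.repr.injective
        rw [map_zero]
        ext j
        rw [Finsupp.zero_apply]
        have h7 : ∑ w ∈ T, bH.repr (u w) j •
            (w : MultilinearMap k (fun _ : Fin m × Fin 2 => V) k) = 0 := by
          ext v
          rw [MultilinearMap.sum_apply, MultilinearMap.zero_apply]
          have h8 := congrArg (fun y => bH.repr y j) (h3 v)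
          simp only [map_sum, map_zero, Finsupp.zero_apply, map_smul, Finsupp.coe_finset_sum,
            Finset.sum_apply, Finsupp.smul_apply, smul_eq_mul] at h8
          rw [← h8]
          refine Finset.sum_congr rfl fun w _ => ?_
          rw [MultilinearMap.smul_apply, smul_eq_mul, mul_comm]
        exact (linearIndependent_iff'.1 hbi T _ h7) w₀ hw₀
      have h9 : χ s ^ c • τ s (z w₀) = χ s ^ m • z w₀ := sub_eq_zero.1 h6
      rw [zpow_sub₀ (chi_ne χ s), zpow_natCast, div_eq_inv_mul, mul_smul, h9, smul_smul,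
        inv_mul_cancel₀ (pow_ne_zero _ (chi_ne χ s)), one_smul]
  -- transfer from `b` to `PT`
  let ι : b ↪ PT ρ χ m := ⟨fun w => ⟨w, hbW w.2⟩, fun w w' hww => Subtype.ext
    (congrArg (fun y : PT ρ χ m => (y : MultilinearMap k (fun _ : Fin m × Fin 2 => V) k)) hww)⟩
  refine ⟨T.map ι, Function.extend ι z 0, ?_, fun v => ?_⟩
  · intro w hw
    obtain ⟨w', hw', rfl⟩ := Finset.mem_map.1 hw
    rw [ι.injective.extend_apply]
    exact hz w' hw'
  · rw [hfv, Finset.sum_map]
    refine Finset.sum_congr rfl fun w _ => ?_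
    rw [ι.injective.extend_apply]
    rfl

end

end Pool.Agent.U400.HM
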