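import Mathlib
import Pool.Agent.U400.HM.Form
import Pool.Agent.U400.HM.Def

/-!
# Homomorphisms between `V^{⊗ s} ⊗ M₁` and `V^{⊗ t} ⊗ M₂`
-/

set_option autoImplicit false
set_option linter.unusedSectionVars false

namespace Pool.Agent.U400.HM

open Polynomial Module TensorProduct Pool.Agent.H204R3.GP Pool.Agent.N166.CZ Pool.Agent.H204R3.SP

noncomputable section

variable {k : Type*} [Field k] [CharZero k] {V : Type*} [AddCommGroup V] [Module k V]
  [FiniteDimensional k V]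
  {Γ : Type*} [Group Γ] (ρ : Representation k Γ V) (χ : Γ →* k)
  (ω : V →ₗ[k] V →ₗ[k] k)
  {M₁ M₂ : Type*} [AddCommGroup M₁] [Module k M₁] [FiniteDimensional k M₁]
  [AddCommGroup M₂] [Module k M₂] [FiniteDimensional k M₂]

/-- The pairing on the first factor. -/
def Pr {t : ℕ} (y : Fin t → V) : ((⨂[k] _ : Fin t, V) ⊗[k] M₂) →ₗ[k] M₂ :=
  (TensorProduct.lid k M₂).toLinearMap ∘ₗ LinearMap.rTensor M₂ (pairing ω y)

theorem Pr_tmul {t : ℕ} (y : Fin t → V) (w : ⨂[k] _ : Fin t, V) (z : M₂) :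
    Pr ω y (w ⊗ₜ[k] z) = pairing ω y w • z := by
  unfold Pr
  rw [LinearMap.comp_apply, LinearMap.rTensor_tmul, LinearEquiv.coe_coe, TensorProduct.lid_tmul]

/-- The coordinate on the second factor. -/
def Co (j : M₂ →ₗ[k] k) {t : ℕ} : ((⨂[k] _ : Fin t, V) ⊗[k] M₂) →ₗ[k] (⨂[k] _ : Fin t, V) :=
  (TensorProduct.rid k _).toLinearMap ∘ₗ LinearMap.lTensor _ j

theorem Co_tmul {t : ℕ} (j : M₂ →ₗ[k] k) (w : ⨂[k] _ : Fin t, V) (z : M₂) :
    Co j (w ⊗ₜ[k] z) = j z • w := by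
  unfold Co
  rw [LinearMap.comp_apply, LinearMap.lTensor_tmul, LinearEquiv.coe_coe, TensorProduct.rid_tmul]

theorem pairing_Co {t : ℕ} (y : Fin t → V) (j : M₂ →ₗ[k] k) (w : (⨂[k] _ : Fin t, V) ⊗[k] M₂) :
    pairing ω y (Co j w) = j (Pr ω y w) := by
  induction w using TensorProduct.induction_on with
  | zero => simp
  | tmul w z => rw [Co_tmul, Pr_tmul, map_smul, map_smul, smul_eq_mul, smul_eq_mul, mul_comm]
  | add a b ha hb => rw [map_add, map_add, ha, hb, map_add, map_add]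

theorem sum_Co {t : ℕ} {d : ℕ} (b₂ : Basis (Fin d) k M₂) (w : (⨂[k] _ : Fin t, V) ⊗[k] M₂) :
    w = ∑ j, (Co (b₂.coord j) w) ⊗ₜ[k] (b₂ j) := by
  induction w using TensorProduct.induction_on with
  | zero => simp
  | tmul w z =>
    simp only [Co_tmul, TensorProduct.smul_tmul]
    rw [← TensorProduct.tmul_sum]
    congr 1
    exact (b₂.sum_repr z).symm
  | add a b ha hb =>
    conv_lhs => rw [ha, hb]
    rw [← Finset.sum_add_distrib]
    refine Finset.sum_congr rfl fun j _ => ?_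
    rw [map_add, TensorProduct.add_tmul]

theorem Pr_inj (halt : ∀ v, ω v v = 0) (hnd : ∀ u, (∀ v, ω v u = 0) → u = 0) {t : ℕ}
    (w : (⨂[k] _ : Fin t, V) ⊗[k] M₂) (hw : ∀ y : Fin t → V, Pr ω y w = 0) : w = 0 := by
  rw [sum_Co (Module.finBasis k M₂) w]
  refine Finset.sum_eq_zero fun j _ => ?_
  have h1 : Co ((Module.finBasis k M₂).coord j) w = 0 := by
    refine pairing_inj ω halt hnd _ fun y => ?_
    rw [pairing_Co, hw, map_zero]
  rw [h1, TensorProduct.zero_tmul]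

theorem Pr_map (hωρ : ∀ s u v, ω (ρ s u) (ρ s v) = χ s * ω u v) (σ₂ : Representation k Γ M₂)
    {t : ℕ} (g : Γ) (y : Fin t → V) (w : (⨂[k] _ : Fin t, V) ⊗[k] M₂) :
    Pr ω (fun i => ρ g (y i)) (TensorProduct.map (PiTensorProduct.map (fun _ => ρ g)) (σ₂ g) w) =
      χ g ^ t • σ₂ g (Pr ω y w) := by
  induction w using TensorProduct.induction_on with
  | zero => simp
  | tmul w z =>
    rw [TensorProduct.map_tmul, Pr_tmul, Pr_tmul, pairing_map ρ χ ω hωρ, map_smul, smul_smul]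
  | add a b ha hb => rw [map_add, map_add, ha, hb, map_add, map_add, smul_add]

/-- One coordinate of a homomorphism. -/
def cof {s t : ℕ} (f : ((⨂[k] _ : Fin s, V) ⊗[k] M₁) →ₗ[k] ((⨂[k] _ : Fin t, V) ⊗[k] M₂))
    (z : M₁) (j : M₂ →ₗ[k] k) : (⨂[k] _ : Fin s, V) →ₗ[k] (⨂[k] _ : Fin t, V) :=
  Co j ∘ₗ f ∘ₗ (TensorProduct.mk k _ M₁).flip z

/-- The multilinear map of a homomorphism. -/
def formH {s t : ℕ} (f : ((⨂[k] _ : Fin s, V) ⊗[k] M₁) →ₗ[k] ((⨂[k] _ : Fin t, V) ⊗[k] M₂)) :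
    MultilinearMap k (fun _ : Fin s ⊕ Fin t => V) (M₁ →ₗ[k] M₂) :=
  ∑ i, ∑ j, (LinearMap.toSpanSingleton k (M₁ →ₗ[k] M₂)
    (((Module.finBasis k M₁).coord i).smulRight (Module.finBasis k M₂ j))).compMultilinearMap
      (formOf ω (cof f (Module.finBasis k M₁ i) ((Module.finBasis k M₂).coord j)))

theorem formH_apply {s t : ℕ}
    (f : ((⨂[k] _ : Fin s, V) ⊗[k] M₁) →ₗ[k] ((⨂[k] _ : Fin t, V) ⊗[k] M₂))
    (v : Fin s ⊕ Fin t → V) (z : M₁) :
    formH ω f v z = Pr ω (fun i => v (Sum.inr i))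
      (f (PiTensorProduct.tprod k (fun i => v (Sum.inl i)) ⊗ₜ[k] z)) := by
  have h1 : formH ω f v z = ∑ i, ∑ j,
      formOf ω (cof f (Module.finBasis k M₁ i) ((Module.finBasis k M₂).coord j)) v •
        ((Module.finBasis k M₁).repr z i • Module.finBasis k M₂ j) := by
    unfold formH
    simp only [MultilinearMap.sum_apply, LinearMap.sum_apply]
    rfl
  rw [h1]
  have h2 : ∀ i, ∑ j, formOf ω (cof f (Module.finBasis k M₁ i)
      ((Module.finBasis k M₂).coord j)) v •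
        ((Module.finBasis k M₁).repr z i • Module.finBasis k M₂ j) =
      (Module.finBasis k M₁).repr z i • Pr ω (fun i => v (Sum.inr i))
        (f (PiTensorProduct.tprod k (fun i => v (Sum.inl i)) ⊗ₜ[k] Module.finBasis k M₁ i)) := by
    intro i
    have h3 : ∀ j, formOf ω (cof f (Module.finBasis k M₁ i)
        ((Module.finBasis k M₂).coord j)) v = (Module.finBasis k M₂).repr
          (Pr ω (fun i => v (Sum.inr i)) (f (PiTensorProduct.tprod k (fun i => v (Sum.inl i))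
            ⊗ₜ[k] Module.finBasis k M₁ i))) j := by
      intro j
      rw [formOf_apply]
      exact pairing_Co ω _ ((Module.finBasis k M₂).coord j) _
    simp only [h3]
    conv_rhs => rw [← (Module.finBasis k M₂).sum_repr (Pr ω (fun i => v (Sum.inr i))
        (f (PiTensorProduct.tprod k (fun i => v (Sum.inl i)) ⊗ₜ[k] Module.finBasis k M₁ i)))]
    rw [Finset.smul_sum]
    refine Finset.sum_congr rfl fun j _ => ?_
    rw [smul_smul, smul_smul, mul_comm]
  simp only [h2]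
  conv_rhs => rw [← (Module.finBasis k M₁).sum_repr z]
  rw [TensorProduct.tmul_sum, map_sum, map_sum]
  refine Finset.sum_congr rfl fun i _ => ?_
  rw [TensorProduct.tmul_smul, map_smul, map_smul]

theorem formH_tate (hωρ : ∀ s u v, ω (ρ s u) (ρ s v) = χ s * ω u v) (σ₁ : Representation k Γ M₁)
    (σ₂ : Representation k Γ M₂) {c : ℤ} {s t : ℕ}
    {f : ((⨂[k] _ : Fin s, V) ⊗[k] M₁) →ₗ[k] ((⨂[k] _ : Fin t, V) ⊗[k] M₂)}
    (hf : IsHomOver ρ χ σ₁ σ₂ c f) : IsTateM ρ χ (σ₁.linHom σ₂) (c + t) (formH ω f) := by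
  obtain ⟨Δ, hΔ, hf⟩ := hf
  refine ⟨Δ, hΔ, fun g hg v => ?_⟩
  ext z
  have h0 : σ₁ g (σ₁ g⁻¹ z) = z := by
    rw [← Module.End.mul_apply, ← map_mul, mul_inv_cancel, map_one, Module.End.one_apply]
  rw [LinearMap.smul_apply, Representation.linHom_apply, LinearMap.comp_apply, LinearMap.comp_apply,
    formH_apply, formH_apply]
  have h1 := hf g hg (PiTensorProduct.tprod k (fun i => v (Sum.inl i)) ⊗ₜ[k] σ₁ g⁻¹ z)
  rw [TensorProduct.map_tmul, PiTensorProduct.map_tprod, h0] at h1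
  rw [h1, map_smul, Pr_map ρ χ ω hωρ, smul_smul, zpow_add₀ (chi_ne χ g), zpow_natCast]

theorem hom_ext (halt : ∀ v, ω v v = 0) (hnd : ∀ u, (∀ v, ω v u = 0) → u = 0) {s t : ℕ}
    {f f' : ((⨂[k] _ : Fin s, V) ⊗[k] M₁) →ₗ[k] ((⨂[k] _ : Fin t, V) ⊗[k] M₂)}
    (h : ∀ (x : Fin s → V) (z : M₁) (y : Fin t → V),
      Pr ω y (f (PiTensorProduct.tprod k x ⊗ₜ[k] z)) =
        Pr ω y (f' (PiTensorProduct.tprod k x ⊗ₜ[k] z))) : f = f' := by
  have h1 : ∀ (x : Fin s → V) (z : M₁), f (PiTensorProduct.tprod k x ⊗ₜ[k] z) =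
      f' (PiTensorProduct.tprod k x ⊗ₜ[k] z) := by
    intro x z
    rw [← sub_eq_zero]
    refine Pr_inj ω halt hnd _ fun y => ?_
    rw [map_sub, h, sub_self]
  refine TensorProduct.ext' fun w z => ?_
  induction w using PiTensorProduct.induction_on with
  | smul_tprod r x => rw [← TensorProduct.smul_tmul', map_smul, map_smul, h1]
  | add a b ha hb => rw [TensorProduct.add_tmul, map_add, map_add, ha, hb]

/-- **The homomorphisms.** -/
theorem homsFromFactors_of (halt : ∀ v, ω v v = 0) (hnd : ∀ u, (∀ v, ω v u = 0) → u = 0)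
    (hωρ : ∀ s u v, ω (ρ s u) (ρ s v) = χ s * ω u v) (σ₁ : Representation k Γ M₁)
    (σ₂ : Representation k Γ M₂) (h : CoreFor ρ χ (σ₁.linHom σ₂)) :
    HomsFromFactors ρ χ ω σ₁ σ₂ := by
  classical
  intro s t c f hf
  have hF := formH_tate ρ χ ω hωρ σ₁ σ₂ hf
  rcases Nat.even_or_odd (s + t) with he | ho
  · obtain ⟨m, hm⟩ := he
    obtain ⟨e⟩ : Nonempty (Fin m × Fin 2 ≃ Fin s ⊕ Fin t) := by
      rw [← Fintype.card_eq, Fintype.card_prod, Fintype.card_sum, Fintype.card_fin, Fintype.card_fin,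
        Fintype.card_fin, Fintype.card_fin]
      omega
    have hF' : IsTateM ρ χ (σ₁.linHom σ₂) (c + t) ((formH ω f).domDomCongr e.symm) := by
      obtain ⟨Δ, hΔ, hF⟩ := hF
      exact ⟨Δ, hΔ, fun g hg v => hF g hg _⟩
    obtain ⟨T, z, hz, hsum⟩ := even_sum ρ χ (σ₁.linHom σ₂) h hF'
    have hrep : ∀ w : PT ρ χ m, ∃ f₁ : (⨂[k] _ : Fin s, V) →ₗ[k] (⨂[k] _ : Fin t, V),
        IsProductOfTwo ρ χ ω m f₁ ∧ ∀ (x : Fin s → V) (y : Fin t → V),
        pairing ω y (f₁ (PiTensorProduct.tprod k x)) =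
          (w : MultilinearMap k (fun _ : Fin m × Fin 2 => V) k) (fun l => Sum.elim x y (e l)) := by
      rintro ⟨w, σ, B, hB, rfl⟩
      obtain ⟨f₁, hf₁⟩ := exists_rep ω halt hnd ((mmG σ B).domDomCongr e)
      refine ⟨f₁, ⟨σ.trans e, B, hB, fun x y => ?_⟩, fun x y => ?_⟩
      · rw [hf₁]
        rfl
      · rw [hf₁]
        rfl
    choose f₁ hf₁ hf₁' using hrep
    have hsumf : f = ∑ w ∈ T, TensorProduct.map (f₁ w) (z w) := by
      refine hom_ext ω halt hnd fun x u y => ?_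
      rw [LinearMap.sum_apply, map_sum]
      have h1 := hsum (fun l => Sum.elim x y (e l))
      rw [MultilinearMap.domDomCongr_apply] at h1
      simp only [Equiv.apply_symm_apply] at h1
      have h2 := congrArg (fun T : M₁ →ₗ[k] M₂ => T u) h1
      rw [formH_apply] at h2
      simp only [Sum.elim_inl, Sum.elim_inr] at h2
      rw [h2, LinearMap.sum_apply]
      refine Finset.sum_congr rfl fun w _ => ?_
      rw [TensorProduct.map_tmul, Pr_tmul, hf₁', LinearMap.smul_apply]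
    rw [hsumf]
    refine Submodule.sum_mem _ fun w hw => Submodule.subset_span
      ⟨m, f₁ w, z w, hf₁ w, ?_, rfl⟩
    obtain ⟨Δ, hΔ, hΔz⟩ := hz w hw
    refine ⟨Δ, hΔ, fun g hg x => ?_⟩
    have h1 := congrArg (fun T : M₁ →ₗ[k] M₂ => T (σ₁ g x)) (hΔz g hg)
    simp only [LinearMap.smul_apply, Representation.linHom_apply, LinearMap.comp_apply] at h1
    rw [← h1, ← Module.End.mul_apply (σ₁ g⁻¹), ← map_mul, inv_mul_cancel, map_one,
      Module.End.one_apply]
  · have h0 : f = 0 := by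
      refine hom_ext ω halt hnd fun x u y => ?_
      have h1 := odd_zero ρ χ (σ₁.linHom σ₂) h (κ := Fin s ⊕ Fin t)
        (by rw [Fintype.card_sum, Fintype.card_fin, Fintype.card_fin]; exact ho) hF (Sum.elim x y)
      have h2 := congrArg (fun T : M₁ →ₗ[k] M₂ => T u) h1
      rw [formH_apply] at h2
      simp only [Sum.elim_inl, Sum.elim_inr] at h2
      rw [h2]
      simp
    rw [h0]
    exact Submodule.zero_mem _

end

end Pool.Agent.U400.HM
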