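import Mathlib
import Pool.Agent.U400.TP.Small
import Pool.Agent.U400.HM.Hom

/-!
# The homomorphisms for abelian varieties with a good Frobenius polynomial
-/

set_option autoImplicit false

namespace Pool.Agent.U400.HM

open Module Polynomial TensorProduct Pool.Agent.H204R3.GP Pool.Agent.H204R3.SP Pool.Agent.W484.TB
  Pool.Agent.W484.HS Pool.Agent.W521.Frob Pool.Agent.W521.Count Pool.Agent.W521.Bad
  Pool.Agent.W521.Descent Pool.Agent.W521.Density Pool.Agent.N166.CZ

universe u

/-- The core statement for a representation whose Frobenius eigenvalues have small rank. -/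
theorem coreFor_of_good {I : Type} [Fintype I] (g : I → ℕ) (E : IntermediateField ℚ ℂ)
    [FiniteDimensional ℚ E] {q : ℕ} (hq : q ≠ 0) (r : ℕ) (hr : ∀ i, r < g i)
    (x : (Σ i, Fin (g i)) → ℤ) (hx : GoodU (splitPrimes E) g q x)
    {k : Type u} {V Γ : Type*} [Field k] [CharZero k] [AddCommGroup V] [Module k V]
    [FiniteDimensional k V] [Group Γ] (ρ : Representation k Γ V) (χ : Γ →* k)
    (ω : V →ₗ[k] V →ₗ[k] k) (halt : ∀ v, ω v v = 0) (hnd : ∀ u, (∀ v, ω v u = 0) → u = 0)
    (hω : ∀ s u v, ω (ρ s u) (ρ s v) = χ s * ω u v) (hss : FiniteIndexSemisimple ρ)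
    (γ : Γ) (hχ : χ γ = q)
    (hγ : (ρ γ).charpoly = ∏ i, (weil q (polys g x i)).map (Int.castRingHom k))
    {H : Type*} [AddCommGroup H] [Module k H] [FiniteDimensional k H] (τ : Representation k Γ H)
    (hτ : ∀ (K : Type u) [Field K] [CharZero K] [Algebra k K] (ρ' : K),
      ((τ γ⁻¹).charpoly.map (algebraMap k K)).IsRoot ρ' →
        ∃ P' : ℚ[X], P' ≠ 0 ∧ RankLEOver E r {z : ℂ | aeval z P' = 0} ∧ aeval ρ' P' = 0) :
    CoreFor ρ χ τ := by
  classical
  have hss' : ∀ Δ : Subgroup Γ, Δ.FiniteIndex → SemiUnder (ρ '' (Δ : Set Γ)) := by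
    intro Δ hΔ U hU
    obtain ⟨U', h1, h2⟩ := hss Δ hΔ U (fun s hs u hu => hU _ ⟨s, hs, rfl⟩ u hu)
    refine ⟨U', ?_, h2⟩
    rintro _ ⟨s, hs, rfl⟩ u hu
    exact h1 s hs u hu
  let C : k[X] := (τ γ⁻¹).charpoly
  let F : k[X] := (ρ γ).charpoly * C
  let K := SplittingField F
  have hinj : Function.Injective (algebraMap k K) := (algebraMap k K).injective
  have : CharZero K := charZero_of_injective_algebraMap hinj
  have hC0 : (ρ γ).charpoly ≠ 0 := (ρ γ).charpoly_monic.ne_zero
  have hD0 : C ≠ 0 := (τ γ⁻¹).charpoly_monic.ne_zero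
  have hFs : (F.map (algebraMap k K)).Splits := SplittingField.splits F
  rw [Polynomial.map_mul] at hFs
  have hCK0 : (ρ γ).charpoly.map (algebraMap k K) ≠ 0 := by
    rw [Ne, Polynomial.map_eq_zero]
    exact hC0
  have hDK0 : C.map (algebraMap k K) ≠ 0 := by
    rw [Ne, Polynomial.map_eq_zero]
    exact hD0
  have hsp1 : ((ρ γ).charpoly.map (algebraMap k K)).Splits :=
    hFs.of_dvd (mul_ne_zero hCK0 hDK0) (dvd_mul_right _ _)
  have hsp2 : (C.map (algebraMap k K)).Splits :=
    hFs.of_dvd (mul_ne_zero hCK0 hDK0) (dvd_mul_left _ _)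
  have hsep : (ρ γ).charpoly.Separable := by
    rw [hγ]
    have h1 := (separable_weil g (splitPrimes E) hq x hx).map (f := algebraMap ℚ k)
    rw [Polynomial.map_prod] at h1
    have h2 : ∀ i, ((weil q (polys g x i)).map (Int.castRingHom ℚ)).map (algebraMap ℚ k) =
        (weil q (polys g x i)).map (Int.castRingHom k) := by
      intro i
      rw [Polynomial.map_map]
      congr 1
      exact RingHom.ext_int _ _
    simpa only [h2] using h1
  have hroot : ∀ z : {z : K // ((ρ γ).charpoly.map (algebraMap k K)).IsRoot z},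
      ∃ i, aeval (z : K) (weil q (polys g x i)) = 0 := by
    rintro ⟨z, hz⟩
    rw [hγ, Polynomial.map_prod, IsRoot, eval_prod, Finset.prod_eq_zero_iff] at hz
    obtain ⟨i, -, hi⟩ := hz
    refine ⟨i, ?_⟩
    rw [Polynomial.map_map, eval_map] at hi
    rw [RingHom.ext_int ((algebraMap k K).comp (Int.castRingHom k)) (algebraMap ℤ K)] at hi
    exact hi
  have hpair : ∀ (P' : ℚ[X]), P' ≠ 0 → RankLEOver E r {z : ℂ | aeval z P' = 0} →
      ∀ ρ' : K, aeval ρ' P' = 0 → ExactPairK
        (fun z : {z : K // ((ρ γ).charpoly.map (algebraMap k K)).IsRoot z} => (z : K))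
        (algebraMap k K (χ γ)) ρ' := by
    intro P' hP' hr' ρ' hρ'
    refine exactPairK_transfer (exactPair_field_over g E hq r hr x hx 1 one_pos P' hP' hr' ρ' hρ')
      (fun z => ⟨z, hroot z⟩) (fun z => pow_one _) ?_
    rw [hχ, pow_one, map_natCast]
  intro d bH
  refine core ρ χ ω halt hnd hω hss' γ (K := K) hsep hsp1 (matS τ bH) (C.map (algebraMap k K))
    hDK0 hsp2 ?_ ?_ ?_
  · have h1 : (Matrix.toLin' (bcS (matS τ bH) K γ⁻¹)).charpoly = C.map (algebraMap k K) := by
      rw [Matrix.charpoly_toLin']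
      change (((matS τ bH) γ⁻¹).map (algebraMap k K)).charpoly = _
      rw [Matrix.charpoly_map]
      congr 1
      exact LinearMap.charpoly_toMatrix (τ γ⁻¹) bH
    rw [← h1]
    exact LinearMap.aeval_self_charpoly _
  · refine hpair (X - 1) ?_ (Pool.Agent.W484.CH.rank_one E r) 1
      (by rw [map_sub, aeval_X, map_one, sub_self])
    exact X_sub_C_ne_zero 1
  · intro ρ' hρ'
    obtain ⟨P', h0, h1, h2⟩ := hτ K ρ' hρ'
    exact hpair P' h0 h1 ρ' h2

end Pool.Agent.U400.HM
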